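import Mathlib

/-!
# Totally metacompact spaces and separable closed subsets
-/

set_option autoImplicit false
open Set Filter Topology TopologicalSpace

namespace Pool.Agent.helper67.Sigma

variable {X : Type} [TopologicalSpace X]

/-- if every base contains a point-finite subcover then closures of countable sets are
selectable -/
theorem select_closure
    (ht : ∀ B : Set (Set X), IsTopologicalBasis B →
      ∃ C : Set (Set X), C ⊆ B ∧ (∀ x, {s ∈ C | x ∈ s}.Finite) ∧ ⋃₀ C = univ)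
    {D : Set X} (hD : D.Countable) (G : ℕ → ℕ → Set X)
    (hopen : ∀ n k, IsOpen (G n k)) (hmono : ∀ n, Monotone (G n)) (hcov : ∀ n x, ∃ k, x ∈ G n k) :
    ∃ f : ℕ → ℕ, ∀ x ∈ closure D, ∃ n, x ∈ G n (f n) := by
  rcases D.eq_empty_or_nonempty with hE | hE
  · exact ⟨fun _ => 0, fun x hx => by rw [hE, closure_empty] at hx; exact hx.elim⟩
  obtain ⟨d, hd⟩ := hD.exists_eq_range hE
  let B : Set (Set X) := {b | IsOpen b ∧ (b ∩ closure D = ∅ ∨ ∃ n k, d n ∈ b ∧ b ⊆ G n k)}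
  have hB : IsTopologicalBasis B := by
    refine isTopologicalBasis_of_isOpen_of_nhds (fun b hb => hb.1) fun x O hx hO => ?_
    by_cases hxD : x ∈ closure D
    · obtain ⟨y, hyO, hyD⟩ := mem_closure_iff.1 hxD O hO hx
      rw [hd] at hyD
      obtain ⟨n, rfl⟩ := hyD
      obtain ⟨k1, hk1⟩ := hcov n x
      obtain ⟨k2, hk2⟩ := hcov n (d n)
      refine ⟨O ∩ G n (max k1 k2), ⟨hO.inter (hopen _ _), Or.inr ⟨n, max k1 k2, ?_, ?_⟩⟩, ?_, ?_⟩
      · exact ⟨hyO, hmono n (le_max_right _ _) hk2⟩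
      · exact inter_subset_right
      · exact ⟨hx, hmono n (le_max_left _ _) hk1⟩
      · exact inter_subset_left
    · refine ⟨O ∩ (closure D)ᶜ, ⟨hO.inter isClosed_closure.isOpen_compl, Or.inl ?_⟩, ⟨hx, hxD⟩,
        inter_subset_left⟩
      rw [inter_assoc, compl_inter_self, inter_empty]
  obtain ⟨C, hCB, hfin, hCcov⟩ := ht B hB
  have h1 : ∀ n, ∃ m, ∀ s ∈ C, d n ∈ s → (∃ k, s ⊆ G n k) → s ⊆ G n m := by
    intro n
    have h2 : ∀ s : Set X, ∃ k, (∃ k, s ⊆ G n k) → s ⊆ G n k := by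
      intro s
      by_cases h : ∃ k, s ⊆ G n k
      · obtain ⟨k, hk⟩ := h
        exact ⟨k, fun _ => hk⟩
      · exact ⟨0, fun h' => (h h').elim⟩
    choose k hk using h2
    obtain ⟨m, hm⟩ := ((hfin (d n)).image k).bddAbove
    refine ⟨m, fun s hs hds hex => (hk s hex).trans (hmono n (hm ⟨s, ⟨hs, hds⟩, rfl⟩))⟩
  choose f hf using h1
  refine ⟨f, fun x hx => ?_⟩
  have hxC : x ∈ ⋃₀ C := by rw [hCcov]; exact mem_univ x
  obtain ⟨s, hs, hxs⟩ := hxC
  rcases (hCB hs).2 with h | ⟨n, k, h2, h3⟩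
  · have : x ∈ s ∩ closure D := ⟨hxs, hx⟩
    rw [h] at this
    exact this.elim
  · exact ⟨n, hf n s hs h2 ⟨k, h3⟩ hxs⟩

/-- in a regular Lindelöf space, an open cover gives an increasing open cover `G` and sets `v`
inside members of the cover such that `closure (v i)` misses `G k` for `k < i` -/
theorem exists_layers [RegularSpace X] [LindelofSpace X] [Nonempty X] (U : Set (Set X))
    (hU : ∀ s ∈ U, IsOpen s) (hcov : ⋃₀ U = univ) :
    ∃ (v : ℕ → Set X) (G : ℕ → Set X), (∀ k, IsOpen (G k)) ∧ Monotone G ∧ (∀ x, ∃ k, x ∈ G k) ∧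
      (∀ x, ∃ j, x ∈ v j) ∧ (∀ j, ∃ u ∈ U, v j ⊆ u) ∧
      ∀ k j, k < j → G k ∩ closure (v j) = ∅ := by
  have h1 : ∀ x : X, ∃ E W : Set X, IsOpen E ∧ x ∈ E ∧ closure E ⊆ W ∧ ∃ u ∈ U, W ⊆ u := by
    intro x
    have hx : x ∈ ⋃₀ U := by rw [hcov]; exact mem_univ x
    obtain ⟨u, hu, hxu⟩ := hx
    obtain ⟨V, hV, hVc, hVs⟩ := exists_mem_nhds_isClosed_subset ((hU u hu).mem_nhds hxu)
    exact ⟨interior V, u, isOpen_interior, mem_interior_iff_mem_nhds.2 hV,
      (closure_minimal interior_subset hVc).trans hVs, u, hu, Subset.rfl⟩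
  choose E W hE hxE hEW hWu using h1
  obtain ⟨T, hT, hTc⟩ := LindelofSpace.elim_nhds_subcover E fun x => (hE x).mem_nhds (hxE x)
  have hTn : T.Nonempty := by
    by_contra h
    rw [not_nonempty_iff_eq_empty] at h
    rw [h] at hTc
    simp only [mem_empty_iff_false, iUnion_of_empty, iUnion_empty] at hTc
    exact (eq_univ_iff_forall.1 hTc (Classical.arbitrary X)).elim
  obtain ⟨t, ht⟩ := hT.exists_eq_range hTn
  have hEc : ∀ x, ∃ i, x ∈ E (t i) := by
    intro x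
    have : x ∈ ⋃ y ∈ T, E y := by rw [hTc]; exact mem_univ x
    obtain ⟨y, hy, hxy⟩ := mem_iUnion₂.1 this
    rw [ht] at hy
    obtain ⟨i, rfl⟩ := hy
    exact ⟨i, hxy⟩
  refine ⟨fun i => W (t i) \ ⋃ l ∈ Finset.range i, closure (E (t l)),
    fun k => ⋃ l ∈ Finset.range (k + 1), E (t l), ?_, ?_, ?_, ?_, ?_, ?_⟩
  · exact fun k => isOpen_iUnion fun l => isOpen_iUnion fun _ => hE _
  · intro k l hkl
    refine biUnion_subset_biUnion_left ?_
    intro i hi
    simp only [Finset.coe_range, mem_Iio] at hi ⊢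
    omega
  · intro x
    obtain ⟨i, hi⟩ := hEc x
    exact ⟨i, mem_iUnion₂.2 ⟨i, by simp, hi⟩⟩
  · intro x
    have hex : ∃ i, x ∈ W (t i) := by
      obtain ⟨i, hi⟩ := hEc x
      exact ⟨i, hEW _ (subset_closure hi)⟩
    classical
    refine ⟨Nat.find hex, Nat.find_spec hex, fun hx => ?_⟩
    obtain ⟨l, hl, hxl⟩ := mem_iUnion₂.1 hx
    exact Nat.find_min hex (Finset.mem_range.1 hl) (hEW _ hxl)
  · intro j
    obtain ⟨u, hu, hWu'⟩ := hWu (t j)
    exact ⟨u, hu, diff_subset.trans hWu'⟩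
  · intro k j hkj
    rw [eq_empty_iff_forall_notMem]
    rintro x ⟨hx, hx2⟩
    obtain ⟨l, hl, hxl⟩ := mem_iUnion₂.1 hx
    rw [mem_closure_iff] at hx2
    obtain ⟨y, hy1, hy2, hy3⟩ := hx2 (E (t l)) (hE _) hxl
    apply hy3
    refine mem_iUnion₂.2 ⟨l, ?_, subset_closure hy1⟩
    rw [Finset.mem_range] at hl ⊢
    omega

end Pool.Agent.helper67.Sigma
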